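import Pool.Graph.R_pool_sql_team_seeded_47a924f7.T6.H70.SA.Defs

/-!
# Maximality of the `Σ₁` statements about definable parameters: the definitions

The language `LSet` of set theory, the class `ZFC` of the models of ZFC, `IsOmega`,
`IsNextCardinal`, the `Σ₁` formulas `IsSigma1`, the transitive embeddings `IsTransEmb`, the notions
of forcing `IsPoset` of a model and the generic extensions `IsGenericExtension` are from the
imported file.
-/

set_option autoImplicit false

namespace Pool.Agent.KS6_94.SM

open FirstOrder FirstOrder.Language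
open Pool.Agent.Helper672.Plain (LSet)
open Pool.Agent.T6.H70.SA

universe u

/-- `a` is the cardinal `ω_n` of the model (`ω_0` is `ω`). -/
def IsAleph {N : Type u} [LSet.Structure N] : ℕ → N → Prop
  | 0, a => IsOmega a
  | n + 1, a => ∃ b, IsAleph n b ∧ IsNextCardinal a b

/-- `x` is the unique element of the model that satisfies `δ`. -/
def IsThe {N : Type u} [LSet.Structure N] (δ : LSet.Formula (Fin 1)) (x : N) : Prop :=
  (δ.Realize fun _ => x) ∧ ∀ y : N, (δ.Realize fun _ => y) → y = x

/-- The notion of forcing `(P, le)` of the model `N` preserves `ω_1, …, ω_n`: in every generic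
extension `N'` that is a model of ZFC, they are `ω_1, …, ω_n`. -/
def Preserves {N : Type} [LSet.Structure N] (P le : N) (n : ℕ) (a : Fin n → N) : Prop :=
  ∀ (N' : Type) [LSet.Structure N'] [ZFC N'] (j : N → N') (G : N'),
    IsGenericExtension j P le G → ∀ i : Fin n, IsAleph (i + 1) (j (a i))

/-- The notion of forcing `(P, le)` of the model `N` forces `φ(a)`: the formula `φ` holds for
`a` in every generic extension. -/
def Forces {N : Type} [LSet.Structure N] (P le : N) {n : ℕ} (φ : LSet.Formula (Fin n))
    (a : Fin n → N) : Prop :=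
  ∀ (N' : Type) [LSet.Structure N'] [ZFC N'] (j : N → N') (G : N'),
    IsGenericExtension j P le G → φ.Realize fun i => j (a i)

/-- The principle (A) for `ω_1, …, ω_n` in the model `N`: every `Σ₁` statement `φ(ω_1, …, ω_n)`
that is forced by a notion of forcing that preserves `ω_1, …, ω_n` holds in `N`. (The principle
(A) of the problem is the case `n = 2`.) -/
def PrincipleA (n : ℕ) (N : Type) [LSet.Structure N] : Prop :=
  ∀ a : Fin n → N, (∀ i : Fin n, IsAleph (i + 1) (a i)) → ∀ φ : LSet.Formula (Fin n),
    IsSigma1 φ → ∀ P le : N, IsPoset P le → Preserves P le n a → Forces P le φ a → φ.Realize a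

/-- The principle (A) for `ω_1, …, ω_n` and arbitrary outer models: every `Σ₁` statement
`φ(ω_1, …, ω_n)` that holds in any model of ZFC that contains `N` as a transitive part and has
the same `ω_1, …, ω_n` holds in `N`. -/
def OuterA (n : ℕ) (N : Type) [LSet.Structure N] : Prop :=
  ∀ a : Fin n → N, (∀ i : Fin n, IsAleph (i + 1) (a i)) → ∀ φ : LSet.Formula (Fin n),
    IsSigma1 φ → ∀ (N' : Type) [LSet.Structure N'] [ZFC N'] (j : N → N'), IsTransEmb j →
      (∀ i : Fin n, IsAleph (i + 1) (j (a i))) → (φ.Realize fun i => j (a i)) → φ.Realize a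

/-- Maximality of `N` for the theory `T` and the definitions `δ_0, δ_1, …`: for all `n`, every
`Σ₁` statement about the elements `a_i` (`i < n`) of `N` defined by the `δ_i` that holds in some
model of `T` that contains `N` as a transitive part, and in which `a_i` is still the element
defined by `δ_i` for all `i < n`, holds in `N`. -/
def Maximal (T : LSet.Theory) (δ : ℕ → LSet.Formula (Fin 1)) (N : Type) [LSet.Structure N] :
    Prop :=
  ∀ (n : ℕ) (a : Fin n → N), (∀ i : Fin n, IsThe (δ i) (a i)) → ∀ φ : LSet.Formula (Fin n),
    IsSigma1 φ → ∀ (N' : Type) [LSet.Structure N'] (j : N → N'), N' ⊨ T → IsTransEmb j →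
      (∀ i : Fin n, IsThe (δ i) (j (a i))) → (φ.Realize fun i => j (a i)) → φ.Realize a

/-- Maximality of `N` for the theory `T` and the definitions `δ_0, δ_1, …` with respect to
forcing: for all `n`, every `Σ₁` statement about the elements `a_i` (`i < n`) of `N` defined by
the `δ_i` that is forced by a notion of forcing of `N` that also forces `T` and that `a_i` still
is the element defined by `δ_i` for all `i < n` holds in `N`. -/
def ForcingMaximal (T : LSet.Theory) (δ : ℕ → LSet.Formula (Fin 1)) (N : Type)
    [LSet.Structure N] : Prop :=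
  ∀ (n : ℕ) (a : Fin n → N), (∀ i : Fin n, IsThe (δ i) (a i)) → ∀ φ : LSet.Formula (Fin n),
    IsSigma1 φ → ∀ P le : N, IsPoset P le →
      (∀ (N' : Type) [LSet.Structure N'] [ZFC N'] (j : N → N') (G : N'),
        IsGenericExtension j P le G →
          N' ⊨ T ∧ (∀ i : Fin n, IsThe (δ i) (j (a i))) ∧ φ.Realize fun i => j (a i)) →
      φ.Realize a

end Pool.Agent.KS6_94.SM
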