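import Pool.Graph.R_pool_sql_team_seeded_47a924f7.T6.H70.SA.Core
import Pool.Graph.R_pool_sql_team_seeded_47a924f7.T6.H70.SA.Gext

/-!
# The cardinals `ω_n` exist in all models of ZFC
-/

set_option autoImplicit false
set_option linter.all false

namespace Pool.Agent.KS6_94.SM

open FirstOrder FirstOrder.Language
open Pool.Agent.Helper672.Plain (LSet Mem IsOrdPair IsPair Zermelo)
open Pool.Agent.H635Amen (ZF)
open Pool.Agent.T6.H70.SA

/-- Separation for uniformly definable properties. -/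
theorem sepUD {k : ℕ} {p : ∀ (N : Type) [LSet.Structure N], (Fin k ⊕ Fin 1 → N) → Prop}
    {q : ∀ (N : Type 1) [LSet.Structure N], (Fin k ⊕ Fin 1 → N) → Prop}
    (h : UD (Fin k ⊕ Fin 1) p q) {N : Type} [LSet.Structure N] (hN : ZFC N) (a : Fin k → N)
    (x : N) : ∃ y, ∀ z, Mem z y ↔ Mem z x ∧ p N (Sum.elim a fun _ => z) := by
  obtain ⟨φ, h1, h2⟩ := h
  obtain ⟨y, hy⟩ := sep_aux hN φ a x
  exact ⟨y, fun z => (hy z).trans (and_congr_right fun _ => h1 N _)⟩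

/-- Replacement for uniformly definable properties. -/
theorem replUD {k : ℕ} {p : ∀ (N : Type) [LSet.Structure N], (Fin k ⊕ Fin 2 → N) → Prop}
    {q : ∀ (N : Type 1) [LSet.Structure N], (Fin k ⊕ Fin 2 → N) → Prop}
    (h : UD (Fin k ⊕ Fin 2) p q) {N : Type} [LSet.Structure N] (hN : ZFC N) (a : Fin k → N)
    (x : N) (h3 : ∀ y, Mem y x → ∃ z, p N (Sum.elim a ![y, z]) ∧
      ∀ w, p N (Sum.elim a ![y, w]) → w = z) :
    ∃ b, ∀ z, Mem z b ↔ ∃ y, Mem y x ∧ p N (Sum.elim a ![y, z]) := by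
  obtain ⟨φ, h1, h2⟩ := h
  obtain ⟨b, hb⟩ := repl_aux hN φ a x (fun y hy => by
    obtain ⟨z, h4, h5⟩ := h3 y hy
    exact ⟨z, (h1 N _).2 h4, fun w hw => h5 w ((h1 N _).1 hw)⟩)
  exact ⟨b, fun z => (hb z).trans (exists_congr fun y => and_congr_right fun _ => h1 N _)⟩

section basic

variable {N : Type} [LSet.Structure N]

theorem pair_unique (hN : ZFC N) {p p' x y : N} (h : IsPair p x y) (h' : IsPair p' x y) :
    p = p' := hN.ext p p' fun z => (h z).trans (h' z).symm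

theorem ordPair_exists (hN : ZFC N) (x y : N) : ∃ q, IsOrdPair q x y := by
  obtain ⟨s, hs⟩ := hN.pairing x x
  obtain ⟨d, hd⟩ := hN.pairing x y
  obtain ⟨p, hp⟩ := hN.pairing s d
  exact ⟨p, s, d, hs, hd, hp⟩

theorem ordPair_unique (hN : ZFC N) {q q' x y : N} (h : IsOrdPair q x y)
    (h' : IsOrdPair q' x y) : q = q' := by
  obtain ⟨s, d, h1, h2, h3⟩ := h
  obtain ⟨s', d', h1', h2', h3'⟩ := h'
  obtain rfl := pair_unique hN h1 h1'
  obtain rfl := pair_unique hN h2 h2'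
  exact pair_unique hN h3 h3'

theorem ordPair_inj (hN : ZFC N) {q x y x' y' : N} (h : IsOrdPair q x y)
    (h' : IsOrdPair q x' y') : x = x' ∧ y = y' := by
  obtain ⟨s, d, h1, h2, h3⟩ := h
  obtain ⟨s', d', h1', h2', h3'⟩ := h'
  have e1 : x = x' := by
    have h4 : Mem s q := (h3 s).2 (Or.inl rfl)
    rcases (h3' s).1 h4 with h5 | h5
    · subst h5
      have h6 : Mem x s := (h1 x).2 (Or.inl rfl)
      exact ((h1' x).1 h6).elim id id
    · subst h5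
      have h6 : Mem x' s := (h2' x').2 (Or.inl rfl)
      exact (((h1 x').1 h6).elim id id).symm
  subst e1
  refine ⟨rfl, ?_⟩
  -- {x, y} and {x, y'} are equal
  have key : ∀ {d d' s s' : N} {y y' : N}, IsPair s x x → IsPair d x y → IsPair s' x x →
      IsPair d' x y' → IsPair q s d → IsPair q s' d' → y = y' ∨ y = x := by
    intro d d' s s' y y' h1 h2 h1' h2' h3 h3'
    have h4 : Mem d q := (h3 d).2 (Or.inr rfl)
    have h6 : Mem y d := (h2 y).2 (Or.inr rfl)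
    rcases (h3' d).1 h4 with h5 | h5
    · subst h5
      exact Or.inr (((h1' y).1 h6).elim id id)
    · subst h5
      exact ((h2' y).1 h6).symm
  rcases key h1 h2 h1' h2' h3 h3' with h4 | h4
  · exact h4
  · rcases key h1' h2' h1 h2 h3' h3 with h5 | h5
    · exact h5.symm
    · rw [h4, h5]

end basic

section inj

variable {N : Type} [LSet.Structure N]

/-- Cantor: no ordinal that indexes all subsets of `c` injects into `c`. -/
theorem exists_big (hN : ZFC N) (c : N) : ∃ k : N, IsOrdinal k ∧ ¬ ∃ g, IsInjection g k c := by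
  obtain ⟨P, hP⟩ := hN.power c
  obtain ⟨k, f, hk, hf, hsur⟩ := hN.choice P
  refine ⟨k, hk, ?_⟩
  rintro ⟨g, hg⟩
  have hud : UD (Fin 3 ⊕ Fin 1)
      (fun N _ v => ∃ y, (Mem y (v (Sum.inl 0)) ∧ PMem y (v (Sum.inr 0)) (v (Sum.inl 1))) ∧
        ∃ z, PMem y z (v (Sum.inl 2)) ∧ ¬ Mem (v (Sum.inr 0)) z)
      (fun N _ v => ∃ y, (Mem y (v (Sum.inl 0)) ∧ PMem y (v (Sum.inr 0)) (v (Sum.inl 1))) ∧
        ∃ z, PMem y z (v (Sum.inl 2)) ∧ ¬ Mem (v (Sum.inr 0)) z) :=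
    UD.ex (UD.and (UD.and (UD.mem _ _) (UD.pmem _ _ _))
      (UD.ex (UD.and (UD.pmem _ _ _) (UD.not (UD.mem _ _)))))
  obtain ⟨D, hD⟩ := sepUD hud hN ![k, g, f] c
  have hD' : ∀ z, Mem z D ↔ Mem z c ∧ ∃ y, (Mem y k ∧ PMem y z g) ∧
      ∃ w, PMem y w f ∧ ¬ Mem z w := hD
  have hDP : Mem D P := (hP D).2 fun w hw => ((hD' w).1 hw).1
  obtain ⟨y0, hy0, hy0D⟩ := hsur D hDP
  obtain ⟨a, ha, hya⟩ := hg.total y0 hy0
  by_cases h : Mem a D
  · obtain ⟨-, y, ⟨hy, hyg⟩, z, hz, hza⟩ := (hD' a).1 h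
    obtain rfl := hg.inj _ _ _ hyg hya
    obtain rfl := hf _ _ _ hz hy0D
    exact hza h
  · exact h ((hD' a).2 ⟨ha, y0, ⟨hy0, hya⟩, D, hy0D, h⟩)

theorem no_cycle3 (hN : ZFC N) {x y z : N} (h1 : Mem x y) (h2 : Mem y z) (h3 : Mem z x) :
    False := by
  obtain ⟨p, hp⟩ := hN.pairing x y
  obtain ⟨q, hq⟩ := hN.pairing z z
  obtain ⟨r, hr⟩ := hN.pairing p q
  obtain ⟨t, ht⟩ := hN.union r
  have ht' : ∀ w, Mem w t ↔ w = x ∨ w = y ∨ w = z := by
    intro w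
    rw [ht]
    constructor
    · rintro ⟨v, hv, hw⟩
      rcases (hr v).1 hv with rfl | rfl
      · rcases (hp w).1 hw with h | h
        · exact Or.inl h
        · exact Or.inr (Or.inl h)
      · exact Or.inr (Or.inr (((hq w).1 hw).elim id id))
    · rintro (h | h | h)
      · exact ⟨p, (hr p).2 (Or.inl rfl), (hp w).2 (Or.inl h)⟩
      · exact ⟨p, (hr p).2 (Or.inl rfl), (hp w).2 (Or.inr h)⟩
      · exact ⟨q, (hr q).2 (Or.inr rfl), (hq w).2 (Or.inl h)⟩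
  obtain ⟨m, hm, hmin⟩ := hN.foundation t ⟨x, (ht' x).2 (Or.inl rfl)⟩
  rcases (ht' m).1 hm with rfl | rfl | rfl
  · exact hmin z ((ht' z).2 (Or.inr (Or.inr rfl))) h3
  · exact hmin x ((ht' x).2 (Or.inl rfl)) h1
  · exact hmin y ((ht' y).2 (Or.inr (Or.inl rfl))) h2

theorem ordinal_mem (hN : ZFC N) {k x : N} (hk : IsOrdinal k) (hx : Mem x k) : IsOrdinal x where
  trans y z hy hz := by
    have hyk := hk.trans _ _ hx hy
    have hzk := hk.trans _ _ hyk hz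
    rcases hk.total z x hzk hx with h | h | h
    · exact h
    · subst h
      exact (mem_asymm hy hz).elim
    · exact (no_cycle3 hN h hz hy).elim
  total y z hy hz := hk.total y z (hk.trans _ _ hx hy) (hk.trans _ _ hx hz)

theorem comp_inj (hN : ZFC N) {m b c g h : N} (hg : IsInjection g m b)
    (hh : IsInjection h b c) : ∃ f, IsInjection f m c := by
  have hud : UD (Fin 4 ⊕ Fin 2)
      (fun N _ v => ∃ y, (Mem y (v (Sum.inl 0)) ∧ PMem (v (Sum.inr 0)) y (v (Sum.inl 1))) ∧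
        ∃ z, (Mem z (v (Sum.inl 2)) ∧ PMem y z (v (Sum.inl 3))) ∧
          IsOrdPair (v (Sum.inr 1)) (v (Sum.inr 0)) z)
      (fun N _ v => ∃ y, (Mem y (v (Sum.inl 0)) ∧ PMem (v (Sum.inr 0)) y (v (Sum.inl 1))) ∧
        ∃ z, (Mem z (v (Sum.inl 2)) ∧ PMem y z (v (Sum.inl 3))) ∧
          IsOrdPair (v (Sum.inr 1)) (v (Sum.inr 0)) z) :=
    UD.ex (UD.and (UD.and (UD.mem _ _) (UD.pmem _ _ _))
      (UD.ex (UD.and (UD.and (UD.mem _ _) (UD.pmem _ _ _)) (UD.ordPair _ _ _))))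
  obtain ⟨f, hf⟩ := replUD hud hN ![b, g, c, h] m (by
    intro x hx
    obtain ⟨y, hy, hxy⟩ := hg.total x hx
    obtain ⟨z, hz, hyz⟩ := hh.total y hy
    obtain ⟨q, hq⟩ := ordPair_exists hN x z
    refine ⟨q, ⟨y, ⟨hy, hxy⟩, z, ⟨hz, hyz⟩, hq⟩, ?_⟩
    rintro w ⟨y', ⟨hy', hxy'⟩, z', ⟨hz', hyz'⟩, hq'⟩
    have hxy'' : PMem x y' g := hxy'
    have hyz'' : PMem y' z' h := hyz'
    have hq'' : IsOrdPair w x z' := hq'
    obtain rfl := hg.func _ _ _ hxy hxy''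
    obtain rfl := hh.func _ _ _ hyz hyz''
    exact ordPair_unique hN hq'' hq)
  have hf' : ∀ q, Mem q f ↔ ∃ x, Mem x m ∧ ∃ y, (Mem y b ∧ PMem x y g) ∧
      ∃ z, (Mem z c ∧ PMem y z h) ∧ IsOrdPair q x z := hf
  have hP : ∀ {x z : N}, PMem x z f → Mem x m ∧ ∃ y, PMem x y g ∧ PMem y z h := by
    rintro x z ⟨q, hq, hqf⟩
    obtain ⟨x', hx', y, ⟨hy, hxy⟩, z', ⟨hz', hyz'⟩, hq'⟩ := (hf' q).1 hqf
    obtain ⟨rfl, rfl⟩ := ordPair_inj hN hq hq'
    exact ⟨hx', y, hxy, hyz'⟩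
  refine ⟨f, ?_, ?_, ?_⟩
  · intro x hx
    obtain ⟨y, hy, hxy⟩ := hg.total x hx
    obtain ⟨z, hz, hyz⟩ := hh.total y hy
    obtain ⟨q, hq⟩ := ordPair_exists hN x z
    exact ⟨z, hz, q, hq, (hf' q).2 ⟨x, hx, y, ⟨hy, hxy⟩, z, ⟨hz, hyz⟩, hq⟩⟩
  · intro x y z h1 h2
    obtain ⟨-, u, h3, h4⟩ := hP h1
    obtain ⟨-, u', h3', h4'⟩ := hP h2
    obtain rfl := hg.func _ _ _ h3 h3'
    exact hh.func _ _ _ h4 h4'
  · intro x y z h1 h2
    obtain ⟨-, u, h3, h4⟩ := hP h1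
    obtain ⟨-, u', h3', h4'⟩ := hP h2
    obtain rfl := hh.inj _ _ _ h4 h4'
    exact hg.inj _ _ _ h3 h3'

theorem id_inj (hN : ZFC N) {m c : N} (hmc : ∀ x, Mem x m → Mem x c) :
    ∃ f, IsInjection f m c := by
  have hud : UD (Fin 0 ⊕ Fin 2)
      (fun N _ v => IsOrdPair (v (Sum.inr 1)) (v (Sum.inr 0)) (v (Sum.inr 0)))
      (fun N _ v => IsOrdPair (v (Sum.inr 1)) (v (Sum.inr 0)) (v (Sum.inr 0))) :=
    UD.ordPair _ _ _
  obtain ⟨f, hf⟩ := replUD hud hN ![] m (by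
    intro x hx
    obtain ⟨q, hq⟩ := ordPair_exists hN x x
    exact ⟨q, hq, fun w hw => ordPair_unique hN (show IsOrdPair w x x from hw) hq⟩)
  have hf' : ∀ q, Mem q f ↔ ∃ x, Mem x m ∧ IsOrdPair q x x := hf
  have hP : ∀ {x z : N}, PMem x z f → Mem x m ∧ x = z := by
    rintro x z ⟨q, hq, hqf⟩
    obtain ⟨x', hx', hq'⟩ := (hf' q).1 hqf
    obtain ⟨rfl, h2⟩ := ordPair_inj hN hq hq'
    exact ⟨hx', h2.symm⟩
  refine ⟨f, ?_, ?_, ?_⟩
  · intro x hx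
    obtain ⟨q, hq⟩ := ordPair_exists hN x x
    exact ⟨x, hmc x hx, q, hq, (hf' q).2 ⟨x, hx, hq⟩⟩
  · intro x y z h1 h2
    rw [← (hP h1).2, ← (hP h2).2]
  · intro x y z h1 h2
    rw [(hP h1).2, (hP h2).2]

/-- There is a least cardinal above every ordinal. -/
theorem exists_next (hN : ZFC N) {c : N} (hc : IsOrdinal c) : ∃ m, IsNextCardinal m c := by
  obtain ⟨k, hk, hkc⟩ := exists_big hN c
  have hud : UD (Fin 1 ⊕ Fin 1)
      (fun N _ v => ¬ ∃ g, IsInjection g (v (Sum.inr 0)) (v (Sum.inl 0)))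
      (fun N _ v => ¬ ∃ g, IsInjection g (v (Sum.inr 0)) (v (Sum.inl 0))) :=
    UD.not (UD.ex (UD.isInjection _ _ _))
  obtain ⟨A, hA⟩ := sepUD hud hN ![c] k
  have hA' : ∀ z, Mem z A ↔ Mem z k ∧ ¬ ∃ g, IsInjection g z c := hA
  have hm : ∃ m, IsOrdinal m ∧ (¬ ∃ g, IsInjection g m c) ∧
      ∀ x, Mem x m → ∃ g, IsInjection g x c := by
    by_cases hne : ∃ y, Mem y A
    · obtain ⟨m, hm, hmin⟩ := hN.foundation A hne
      obtain ⟨hmk, hmc⟩ := (hA' m).1 hm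
      refine ⟨m, ordinal_mem hN hk hmk, hmc, fun x hx => ?_⟩
      by_contra hcon
      exact hmin x ((hA' x).2 ⟨hk.trans _ _ hmk hx, hcon⟩) hx
    · refine ⟨k, hk, hkc, fun x hx => ?_⟩
      by_contra hcon
      exact hne ⟨x, (hA' x).2 ⟨hx, hcon⟩⟩
  obtain ⟨m, hmo, hmc, hml⟩ := hm
  have hcm : Mem c m := by
    rcases hmo.cmp hc with h | h | h
    · exact absurd (id_inj hN fun x hx => hc.trans _ _ h hx) hmc
    · subst h
      exact absurd (id_inj hN fun x hx => hx) hmc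
    · exact h
  refine ⟨m, ⟨hmo, ?_⟩, hcm, ?_⟩
  · rintro x hx ⟨g, hg⟩
    obtain ⟨h, hh⟩ := hml x hx
    exact hmc (comp_inj hN hg hh)
  · intro x hx hxc
    rcases hxc.ord.cmp hc with h | h | h
    · exact Or.inr h
    · exact Or.inl h
    · exact absurd (hml x hx) (hxc.card c h)

end inj

section omega

variable {N : Type} [LSet.Structure N]

/-- `x` is a natural number of the model. -/
def IsNatl (x : N) : Prop := IsOrdinal x ∧ ∀ y, (Mem y x ∨ y = x) → (∃ z, Mem z y) →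
  ∃ z, Mem z y ∧ ∀ w, Mem w y → ¬ Mem z w

theorem ud_isNatl {ι : Type} (i : ι) : UD ι (fun N _ v => IsNatl (v i))
    (fun N _ v => IsOrdinal (v i) ∧ ∀ y, (Mem y (v i) ∨ y = v i) → (∃ z, Mem z y) →
      ∃ z, Mem z y ∧ ∀ w, Mem w y → ¬ Mem z w) := by
  refine UD.congr (p := fun N _ v => IsOrdinal (v i) ∧ ∀ y, (Mem y (v i) ∨ y = v i) →
    (∃ z, Mem z y) → ∃ z, Mem z y ∧ ∀ w, Mem w y → ¬ Mem z w)
    (q := fun N _ v => IsOrdinal (v i) ∧ ∀ y, (Mem y (v i) ∨ y = v i) →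
    (∃ z, Mem z y) → ∃ z, Mem z y ∧ ∀ w, Mem w y → ¬ Mem z w) ?_
    (fun N _ v => Iff.rfl) (fun N _ v => Iff.rfl)
  refine UD.and (UD.isOrdinal i) ?_
  exact UD.all (UD.imp (UD.or (UD.mem _ _) (UD.eq _ _)) (UD.imp (UD.ex (UD.mem _ _))
    (UD.ex (UD.and (UD.mem _ _) (UD.all (UD.imp (UD.mem _ _) (UD.not (UD.mem _ _))))))))

theorem IsNatl.mem (hN : ZFC N) {x y : N} (hx : IsNatl x) (hy : Mem y x) : IsNatl y := by
  refine ⟨ordinal_mem hN hx.1 hy, fun z hz hne => ?_⟩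
  refine hx.2 z (Or.inl ?_) hne
  rcases hz with hz | rfl
  · exact hx.1.trans _ _ hy hz
  · exact hy

theorem IsNatl.succ (hN : ZFC N) {x s : N} (hx : IsNatl x)
    (hs : ∀ z, Mem z s ↔ Mem z x ∨ z = x) : IsNatl s := by
  refine ⟨⟨?_, ?_⟩, ?_⟩
  · intro u v hu hv
    rcases (hs u).1 hu with h | rfl
    · exact (hs v).2 (Or.inl (hx.1.trans _ _ h hv))
    · exact (hs v).2 (Or.inl hv)
  · intro u v hu hv
    rcases (hs u).1 hu with h | rfl
    · rcases (hs v).1 hv with h' | rfl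
      · exact hx.1.total u v h h'
      · exact Or.inl h
    · rcases (hs v).1 hv with h' | rfl
      · exact Or.inr (Or.inr h')
      · exact Or.inr (Or.inl rfl)
  · intro y hy hne
    rcases hy with hy | rfl
    · exact hx.2 y ((hs y).1 hy) hne
    · refine ⟨x, (hs x).2 (Or.inr rfl), fun w hw hxw => ?_⟩
      rcases (hs w).1 hw with h | rfl
      · exact mem_asymm h hxw
      · exact mem_irrefl _ hxw

theorem exists_omega (hN : ZFC N) : ∃ w : N, IsOmega w := by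
  obtain ⟨i, ⟨e, hei, he⟩, hsucc⟩ := hN.infinity
  have hud : UD (Fin 0 ⊕ Fin 1) (fun N _ v => IsNatl (v (Sum.inr 0)))
      (fun N _ v => IsOrdinal (v (Sum.inr 0)) ∧ ∀ y, (Mem y (v (Sum.inr 0)) ∨ y = v (Sum.inr 0)) →
      (∃ z, Mem z y) → ∃ z, Mem z y ∧ ∀ w, Mem w y → ¬ Mem z w) := ud_isNatl _
  obtain ⟨w, hw⟩ := sepUD hud hN ![] i
  have hw' : ∀ z, Mem z w ↔ Mem z i ∧ IsNatl z := hw
  have hemp : IsNatl e := ⟨⟨fun x y hx => absurd hx (he x), fun x y hx => absurd hx (he x)⟩, by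
    rintro y (hy | rfl) ⟨z, hz⟩
    · exact absurd hy (he y)
    · exact absurd hz (he z)⟩
  -- natural numbers are in `i`
  have hnat : ∀ x, IsNatl x → ∀ y, Mem y x → Mem y i := by
    intro x hx y hy
    by_contra hyi
    have hud2 : UD (Fin 1 ⊕ Fin 1) (fun N _ v => ¬ Mem (v (Sum.inr 0)) (v (Sum.inl 0)))
      (fun N _ v => ¬ Mem (v (Sum.inr 0)) (v (Sum.inl 0))) := UD.not (UD.mem _ _)
    obtain ⟨B, hB⟩ := sepUD hud2 hN ![i] x
    have hB' : ∀ z, Mem z B ↔ Mem z x ∧ ¬ Mem z i := hB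
    obtain ⟨b, hb, hbmin⟩ := hN.foundation B ⟨y, (hB' y).2 ⟨hy, hyi⟩⟩
    obtain ⟨hbx, hbi⟩ := (hB' b).1 hb
    by_cases hne : ∃ z, Mem z b
    · obtain ⟨z, hz, hzl⟩ := hx.2 b (Or.inl hbx) hne
      have hzx := hx.1.trans _ _ hbx hz
      have hzi : Mem z i := by
        by_contra hcon
        exact hbmin z ((hB' z).2 ⟨hzx, hcon⟩) hz
      obtain ⟨s, hsi, hs⟩ := hsucc z hzi
      have hbo := ordinal_mem hN hx.1 hbx
      have : b = s := by
        refine hN.ext b s fun u => ?_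
        rw [hs]
        constructor
        · intro hu
          rcases hbo.total u z hu hz with h | h | h
          · exact Or.inl h
          · exact Or.inr h
          · exact absurd h (hzl u hu)
        · rintro (h | rfl)
          · exact hbo.trans _ _ hz h
          · exact hz
      exact hbi (this ▸ hsi)
    · have : b = e := by
        refine hN.ext b e fun u => ⟨fun hu => absurd ⟨u, hu⟩ hne, fun hu => absurd hu (he u)⟩
      exact hbi (this ▸ hei)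
  refine ⟨w, ⟨⟨?_, ?_⟩, ⟨e, (hw' e).2 ⟨hei, hemp⟩⟩, ?_, ?_⟩⟩
  · intro x y hx hy
    obtain ⟨-, hx2⟩ := (hw' x).1 hx
    exact (hw' y).2 ⟨hnat x hx2 y hy, hx2.mem hN hy⟩
  · intro x y hx hy
    exact ((hw' x).1 hx).2.1.cmp ((hw' y).1 hy).2.1
  · intro x hx
    obtain ⟨hx1, hx2⟩ := (hw' x).1 hx
    obtain ⟨s, hsi, hs⟩ := hsucc x hx1
    exact ⟨s, (hw' s).2 ⟨hsi, hx2.succ hN hs⟩, (hs x).2 (Or.inr rfl)⟩
  · intro x hx hne
    obtain ⟨hx1, hx2⟩ := (hw' x).1 hx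
    exact hx2.2 x (Or.inr rfl) hne

end omega

end Pool.Agent.KS6_94.SM
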