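import Pool.Agent.KS6_94.SM.Defs
import Pool.Agent.KS6_94.SM.Omega

/-!
# Theories whose models are maximal for `Σ₁` statements about definable parameters
-/

set_option autoImplicit false
set_option linter.all false

namespace Pool.Agent.KS6_94.SM

open FirstOrder FirstOrder.Language
open Pool.Agent.Helper672.Plain (LSet Mem IsOrdPair IsPair Zermelo)
open Pool.Agent.H635Amen (ZF)
open Pool.Agent.T6.H70.SA

universe u

/-- The formula saying that variable `i` is the unique element that satisfies `δ`. -/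
noncomputable def theF {α : Type} (δ : LSet.Formula (Fin 1)) (i : α) : LSet.Formula α :=
  (δ.relabel fun _ => i) ⊓ Formula.iAlls Unit
    ((δ.relabel (fun _ => (Sum.inr () : α ⊕ Unit))).imp
      (Term.equal (Term.var (Sum.inr ())) (Term.var (Sum.inl i))))

theorem theF_iff {α : Type} (δ : LSet.Formula (Fin 1)) (i : α) {N : Type u} [LSet.Structure N]
    (v : α → N) : (theF δ i).Realize v ↔ IsThe δ (v i) := by
  unfold theF IsThe
  rw [Formula.realize_inf, Formula.realize_relabel, Formula.realize_iAlls]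
  refine and_congr Iff.rfl ?_
  constructor
  · intro h y hy
    have h1 := h fun _ => y
    rw [Formula.realize_imp, Formula.realize_relabel, Formula.realize_equal] at h1
    exact h1 hy
  · intro h y
    rw [Formula.realize_imp, Formula.realize_relabel, Formula.realize_equal]
    exact h (y ())

/-- The sentence saying that `φ` holds for the elements defined by `δ_0, …, δ_{n-1}`. -/
noncomputable def sent (δ : ℕ → LSet.Formula (Fin 1)) (n : ℕ) (φ : LSet.Formula (Fin n)) :
    LSet.Sentence :=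
  Formula.iExs (α := Empty) (Fin n)
    ((BoundedFormula.iInf fun i : Fin n => theF (δ i) (Sum.inr i : Empty ⊕ Fin n)) ⊓
      φ.relabel Sum.inr)

theorem sent_iff (δ : ℕ → LSet.Formula (Fin 1)) (n : ℕ) (φ : LSet.Formula (Fin n))
    (N : Type u) [LSet.Structure N] :
    N ⊨ sent δ n φ ↔ ∃ a : Fin n → N, (∀ i : Fin n, IsThe (δ i) (a i)) ∧ φ.Realize a := by
  unfold sent Sentence.Realize
  rw [Formula.realize_iExs]
  refine exists_congr fun a => ?_
  rw [Formula.realize_inf, Formula.realize_relabel]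
  refine and_congr ?_ Iff.rfl
  unfold Formula.Realize
  rw [BoundedFormula.realize_iInf]
  refine forall_congr' fun i => ?_
  exact theF_iff (δ i) (Sum.inr i : Empty ⊕ Fin n) _

theorem exists_max (δ : ℕ → LSet.Formula (Fin 1)) {T : LSet.Theory} (hT : T.IsSatisfiable)
    (n : ℕ) : ∃ S : Set (LSet.Formula (Fin n)), (∀ φ ∈ S, IsSigma1 φ) ∧
    (T ∪ sent δ n '' S).IsSatisfiable ∧
    ∀ φ, IsSigma1 φ → (T ∪ sent δ n '' (insert φ S)).IsSatisfiable → φ ∈ S := by
  obtain ⟨S, hS⟩ := zorn_subset {S : Set (LSet.Formula (Fin n)) | (∀ φ ∈ S, IsSigma1 φ) ∧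
    (T ∪ sent δ n '' S).IsSatisfiable} (by
      intro c hc hch
      by_cases hne : c.Nonempty
      · refine ⟨⋃₀ c, ⟨?_, ?_⟩, fun s hs => Set.subset_sUnion_of_mem hs⟩
        · rintro φ ⟨s, hs, hφ⟩
          exact (hc hs).1 φ hφ
        · have _ : Nonempty c := hne.to_subtype
          have hd : Directed (· ⊆ ·) (fun s : c => T ∪ sent δ n '' s.1) := by
            intro s t
            have hm : ∀ {a b : Set (LSet.Formula (Fin n))}, a ⊆ b →
                T ∪ sent δ n '' a ⊆ T ∪ sent δ n '' b := by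
              intro a b hab
              exact Set.union_subset_union_right _ (Set.image_mono hab)
            rcases hch.total s.2 t.2 with h | h
            · exact ⟨t, hm h, subset_rfl⟩
            · exact ⟨s, subset_rfl, hm h⟩
          have h1 := (Theory.isSatisfiable_directed_union_iff hd).2 (fun s => (hc s.2).2)
          have h2 : (⋃ s : c, (T ∪ sent δ n '' s.1)) = T ∪ sent δ n '' (⋃₀ c) := by
            ext σ
            simp only [Set.mem_iUnion]
            constructor
            · rintro ⟨s, hσ | ⟨φ, hφ, rfl⟩⟩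
              · exact Or.inl hσ
              · exact Or.inr ⟨φ, ⟨s.1, s.2, hφ⟩, rfl⟩
            · rintro (hσ | ⟨φ, ⟨s, hs, hφ⟩, rfl⟩)
              · obtain ⟨s, hs⟩ := hne
                exact ⟨⟨s, hs⟩, Or.inl hσ⟩
              · exact ⟨⟨s, hs⟩, Or.inr ⟨φ, hφ, rfl⟩⟩
          rwa [h2] at h1
      · refine ⟨∅, ⟨fun φ hφ => absurd hφ (Set.notMem_empty φ), ?_⟩, fun s hs => ?_⟩
        · rwa [Set.image_empty, Set.union_empty]
        · exact absurd ⟨s, hs⟩ hne)
  refine ⟨S, hS.prop.1, hS.prop.2, fun φ hφ h => ?_⟩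
  have h1 := hS.le_of_ge (y := insert φ S) ⟨?_, h⟩ (Set.subset_insert φ S)
  · exact h1 (Set.mem_insert φ S)
  · rintro ψ (rfl | hψ)
    · exact hφ
    · exact hS.prop.1 ψ hψ

section

variable (δ : ℕ → LSet.Formula (Fin 1)) (T : {T : LSet.Theory // T.IsSatisfiable})

/-- the stages -/
noncomputable def stg : ℕ → {T : LSet.Theory // T.IsSatisfiable}
  | 0 => T
  | n + 1 => ⟨(stg n).1 ∪ sent δ n '' (exists_max δ (stg n).2 n).choose,
      (exists_max δ (stg n).2 n).choose_spec.2.1⟩

/-- the maximal sets -/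
noncomputable def mx (n : ℕ) : Set (LSet.Formula (Fin n)) := (exists_max δ (stg δ T n).2 n).choose

theorem stg_succ (n : ℕ) : (stg δ T (n + 1)).1 = (stg δ T n).1 ∪ sent δ n '' mx δ T n := rfl

theorem mx_sigma (n : ℕ) : ∀ φ ∈ mx δ T n, IsSigma1 φ :=
  (exists_max δ (stg δ T n).2 n).choose_spec.1

theorem mx_max (n : ℕ) (φ : LSet.Formula (Fin n)) (hφ : IsSigma1 φ)
    (h : ((stg δ T n).1 ∪ sent δ n '' (insert φ (mx δ T n))).IsSatisfiable) : φ ∈ mx δ T n :=
  (exists_max δ (stg δ T n).2 n).choose_spec.2.2 φ hφ h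

theorem stg_mono {m n : ℕ} (h : m ≤ n) : (stg δ T m).1 ⊆ (stg δ T n).1 := by
  induction h with
  | refl => exact subset_rfl
  | step _ ih => exact ih.trans Set.subset_union_left

/-- the final theory -/
noncomputable def fin : LSet.Theory := ⋃ n, (stg δ T n).1

theorem fin_sat : (fin δ T).IsSatisfiable := by
  refine (Theory.isSatisfiable_directed_union_iff ?_).2 fun n => (stg δ T n).2
  intro m n
  rcases le_total m n with h | h
  · exact ⟨n, stg_mono δ T h, subset_rfl⟩
  · exact ⟨m, subset_rfl, stg_mono δ T h⟩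

theorem fin_max (N : Type) [LSet.Structure N] [Nonempty N] (hN : N ⊨ fin δ T) :
    Maximal T.1 δ N := by
  intro n a ha φ hφ N' _ j hN' hj hja hr
  -- the sentences of the stages hold in `N'`
  have h1 : ∀ m, m ≤ n → ∀ ψ ∈ mx δ T m, N' ⊨ sent δ m ψ := by
    intro m hm ψ hψ
    have h2 : N ⊨ sent δ m ψ := hN.realize_of_mem _
      (Set.mem_iUnion.2 ⟨m + 1, Or.inr ⟨ψ, hψ, rfl⟩⟩)
    obtain ⟨b, hb, hr2⟩ := (sent_iff δ m ψ N).1 h2
    have h3 : b = fun i => a (Fin.castLE hm i) := by
      funext i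
      exact (ha (Fin.castLE hm i)).2 _ (hb i).1
    rw [h3] at hr2
    refine (sent_iff δ m ψ N').2 ⟨fun i => j (a (Fin.castLE hm i)), fun i => ?_, ?_⟩
    · exact hja (Fin.castLE hm i)
    · exact sigma1_up hj (mx_sigma δ T m ψ hψ) _ hr2
  have h2 : ∀ m, m ≤ n → N' ⊨ (stg δ T m).1 := by
    intro m
    induction m with
    | zero => exact fun _ => hN'
    | succ m ih =>
      intro hm
      have h3 := ih (by omega)
      refine ⟨fun σ hσ => ?_⟩
      rcases hσ with hσ | ⟨ψ, hψ, rfl⟩
      · exact h3.realize_of_mem σ hσ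
      · exact h1 m (by omega) ψ hψ
  have h4 : φ ∈ mx δ T n := by
    refine mx_max δ T n φ hφ ?_
    have h5 : N' ⊨ ((stg δ T n).1 ∪ sent δ n '' (insert φ (mx δ T n))) := by
      refine ⟨fun σ hσ => ?_⟩
      rcases hσ with hσ | ⟨ψ, (rfl | hψ), rfl⟩
      · exact (h2 n le_rfl).realize_of_mem σ hσ
      · exact (sent_iff δ n ψ N').2 ⟨_, hja, hr⟩
      · exact h1 n le_rfl ψ hψ
    have : Nonempty N' := ⟨j (Classical.arbitrary N)⟩
    exact Theory.Model.isSatisfiable N'
  have h6 : N ⊨ sent δ n φ := hN.realize_of_mem _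
    (Set.mem_iUnion.2 ⟨n + 1, Or.inr ⟨φ, h4, rfl⟩⟩)
  obtain ⟨b, hb, hr2⟩ := (sent_iff δ n φ N).1 h6
  have h7 : b = a := by
    funext i
    exact (ha i).2 _ (hb i).1
  rwa [h7] at hr2

end

/-- Every satisfiable theory has a satisfiable extension all of whose models are maximal. -/
theorem exists_maximal (δ : ℕ → LSet.Formula (Fin 1)) (T : LSet.Theory) (hT : T.IsSatisfiable) :
    ∃ T' : LSet.Theory, T ⊆ T' ∧ T'.IsSatisfiable ∧
      ∀ (N : Type) [LSet.Structure N] [Nonempty N], N ⊨ T' → Maximal T δ N :=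
  ⟨fin δ ⟨T, hT⟩, Set.subset_iUnion (fun n => (stg δ ⟨T, hT⟩ n).1) 0, fin_sat δ _,
    fun N _ _ hN => fin_max δ _ N hN⟩

/-! ### The cardinals -/

theorem ud_aleph {ι : Type} (n : ℕ) : ∀ i : ι, UD ι (fun N _ v => IsAleph n (v i))
    (fun N _ v => IsAleph n (v i)) := by
  induction n generalizing ι with
  | zero => exact fun i => UD.isOmega i
  | succ n ih => exact fun i => UD.ex (UD.and (ih _) (UD.isNextCardinal _ _))

/-- The definition of `ω_n`. -/
noncomputable def alephF (n : ℕ) : LSet.Formula (Fin 1) := (ud_aleph (ι := Fin 1) n 0).choose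

theorem alephF_iff (n : ℕ) {N : Type} [LSet.Structure N] (x : N) :
    ((alephF n).Realize fun _ => x) ↔ IsAleph n x :=
  (ud_aleph (ι := Fin 1) n 0).choose_spec.1 N fun _ => x

theorem aleph_unique (n : ℕ) : ∀ {N : Type} [LSet.Structure N] [ZFC N] {x y : N},
    IsAleph n x → IsAleph n y → x = y := by
  induction n with
  | zero => exact fun hx hy => IsOmega.unique hx hy
  | succ n ih =>
    intro N _ _ x y hx hy
    obtain ⟨a, ha, h1⟩ := hx
    obtain ⟨b, hb, h2⟩ := hy
    obtain rfl := ih ha hb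
    exact h1.unique h2

theorem aleph_ordinal (n : ℕ) {N : Type} [LSet.Structure N] {x : N} (h : IsAleph n x) :
    IsOrdinal x := by
  cases n with
  | zero => exact h.ord
  | succ n => exact h.choose_spec.2.card.ord

theorem aleph_exists {N : Type} [LSet.Structure N] (hN : ZFC N) (n : ℕ) :
    ∃ x : N, IsAleph n x := by
  induction n with
  | zero => exact exists_omega hN
  | succ n ih =>
    obtain ⟨b, hb⟩ := ih
    obtain ⟨x, hx⟩ := exists_next hN (aleph_ordinal n hb)
    exact ⟨x, b, hb, hx⟩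

theorem the_aleph (n : ℕ) {N : Type} [LSet.Structure N] [ZFC N] (x : N) :
    IsThe (alephF n) x ↔ IsAleph n x := by
  unfold IsThe
  rw [alephF_iff]
  refine ⟨fun h => h.1, fun h => ⟨h, fun y hy => ?_⟩⟩
  exact aleph_unique n ((alephF_iff n y).1 hy) h

theorem zfcT_sat : zfcT.IsSatisfiable := by
  let _ : LSet.Structure ZFSet.{0} := strV
  have h : ZFSet.{0} ⊨ zfcT := zfcT_of' zfc_V
  have : Nonempty ZFSet.{0} := ⟨∅⟩
  exact Theory.Model.isSatisfiable ZFSet.{0}

end Pool.Agent.KS6_94.SM
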